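import Pool.Agent.H2.Om1

/-! In a numerical monoid with generators `n₁ < n₂ < n₃`, `ω(n₃) ≥ min (ω(n₁), ω(n₂))`. -/

namespace Pool.Agent.Results.MP_1fb722_al.Order

open Pool.Agent.H2.Om

variable {n1 n2 n3 : ℕ}

def D (n1 n2 n3 x y : ℕ) : Prop := ∃ u v w, y = x + u * n1 + v * n2 + w * n3

lemma dv_iff (x y : ℕ) : Dv (AddSubmonoid.closure {n1, n2, n3}) x y ↔ D n1 n2 n3 x y := by
  constructor
  · rintro ⟨g, hg, rfl⟩
    induction hg using AddSubmonoid.closure_induction generalizing x with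
    | mem a ha =>
      rcases ha with rfl | rfl | rfl
      exacts [⟨1, 0, 0, by simp⟩, ⟨0, 1, 0, by simp⟩, ⟨0, 0, 1, by simp⟩]
    | zero => exact ⟨0, 0, 0, by simp⟩
    | add a b _ _ ha hb =>
      obtain ⟨u, v, w, e⟩ := ha 0
      obtain ⟨u', v', w', e'⟩ := hb 0
      exact ⟨u + u', v + v', w + w', by linarith⟩
  · rintro ⟨u, v, w, rfl⟩
    have m : ∀ (c a : ℕ), a ∈ ({n1, n2, n3} : Set ℕ) →
        c * a ∈ AddSubmonoid.closure ({n1, n2, n3} : Set ℕ) := fun c a ha =>
      nsmul_mem (AddSubmonoid.subset_closure ha) c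
    exact ⟨u * n1 + v * n2 + w * n3, add_mem (add_mem (m _ _ (by simp)) (m _ _ (by simp)))
      (m _ _ (by simp)), by ring⟩

/-- bullets as triples -/
def B (n1 n2 n3 x a b c : ℕ) : Prop :=
  D n1 n2 n3 x (a * n1 + b * n2 + c * n3) ∧
  (∀ a', a = a' + 1 → ¬ D n1 n2 n3 x (a' * n1 + b * n2 + c * n3)) ∧
  (∀ b', b = b' + 1 → ¬ D n1 n2 n3 x (a * n1 + b' * n2 + c * n3)) ∧
  (∀ c', c = c' + 1 → ¬ D n1 n2 n3 x (a * n1 + b * n2 + c' * n3))

lemma exists_triple (s : Multiset ℕ) (hs : ∀ a ∈ s, a ∈ ({n1, n2, n3} : Set ℕ)) :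
    ∃ a b c, s = Multiset.replicate a n1 + Multiset.replicate b n2 + Multiset.replicate c n3 := by
  induction s using Multiset.induction_on with
  | empty => exact ⟨0, 0, 0, rfl⟩
  | cons g s ih =>
    obtain ⟨a, b, c, rfl⟩ := ih fun a ha => hs a (Multiset.mem_cons_of_mem ha)
    rcases hs g (Multiset.mem_cons_self _ _) with rfl | rfl | rfl
    · exact ⟨a + 1, b, c, by simp [Multiset.replicate_succ]⟩
    · exact ⟨a, b + 1, c, by simp [Multiset.replicate_succ]⟩
    · exact ⟨a, b, c + 1, by simp [Multiset.replicate_succ]⟩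

lemma om_iff (x N : ℕ) : OmP (AddSubmonoid.closure {n1, n2, n3}) x N ↔
    ∀ a b c, B n1 n2 n3 x a b c → a + b + c ≤ N := by
  rw [omP_iff]
  have key : ∀ a b c, Bullet {n1, n2, n3} x
      (Multiset.replicate a n1 + Multiset.replicate b n2 + Multiset.replicate c n3) ↔
      B n1 n2 n3 x a b c := by
    intro a b c
    simp only [Bullet, dv_iff, Multiset.sum_add, Multiset.sum_replicate, smul_eq_mul,
      Multiset.mem_add, Multiset.mem_replicate]
    constructor
    · rintro ⟨-, h2, h3⟩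
      refine ⟨h2, ?_, ?_, ?_⟩
      · rintro a rfl; exact h3 n1 (by simp) _ (by ring)
      · rintro a rfl; exact h3 n2 (by simp) _ (by ring)
      · rintro a rfl; exact h3 n3 (by simp) _ (by ring)
    · rintro ⟨h1, h2, h3, h4⟩
      refine ⟨?_, h1, ?_⟩
      · rintro g ((⟨-, rfl⟩ | ⟨-, rfl⟩) | ⟨-, rfl⟩) <;> simp
      · rintro g ((⟨h, rfl⟩ | ⟨h, rfl⟩) | ⟨h, rfl⟩) R hR
        · obtain ⟨a, rfl⟩ := Nat.exists_eq_succ_of_ne_zero h
          rw [show R = a * g + b * n2 + c * n3 by simp only [Nat.succ_mul] at hR; omega]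
          exact h2 a rfl
        · obtain ⟨b, rfl⟩ := Nat.exists_eq_succ_of_ne_zero h
          rw [show R = a * n1 + b * g + c * n3 by simp only [Nat.succ_mul] at hR; omega]
          exact h3 b rfl
        · obtain ⟨c, rfl⟩ := Nat.exists_eq_succ_of_ne_zero h
          rw [show R = a * n1 + b * n2 + c * g by simp only [Nat.succ_mul] at hR; omega]
          exact h4 c rfl
  constructor
  · intro h a b c hb
    simpa using h _ ((key a b c).mpr hb)
  · intro h s hs
    obtain ⟨a, b, c, rfl⟩ := exists_triple s hs.1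
    simpa using h a b c ((key a b c).mp hs)

theorem main (h0 : 0 < n1) (h12 : n1 < n2) (h23 : n2 < n3) (N : ℕ)
    (H : ∀ a b c, B n1 n2 n3 n3 a b c → a + b + c ≤ N) :
    (∀ a b c, B n1 n2 n3 n1 a b c → a + b + c ≤ N) ∨
    (∀ a b c, B n1 n2 n3 n2 a b c → a + b + c ≤ N) := by
  classical
  obtain ⟨m1, rfl⟩ : ∃ m, n1 = m + 1 := ⟨n1 - 1, by omega⟩
  obtain ⟨m2, rfl⟩ : ∃ m, n2 = m + 1 := ⟨n2 - 1, by omega⟩
  set n1 := m1 + 1 with e1
  set n2 := m2 + 1 with e2
  have ex1 : ∃ a, D n1 n2 n3 n3 (a * n1) := ⟨n3, 0, 0, m1, by rw [e1]; ring⟩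
  have ex2 : ∃ a, D n1 n2 n3 n3 (a * n2) := ⟨n3, 0, 0, m2, by rw [e2]; ring⟩
  have ex3 : ∃ c, ∃ r s, (c + 1) * n3 = r * n1 + s * n2 := ⟨m1, n3, 0, by rw [e1]; ring⟩
  clear_value n1 n2
  obtain ⟨P1, hP1, mP1⟩ : ∃ P, D n1 n2 n3 n3 (P * n1) ∧ ∀ a, D n1 n2 n3 n3 (a * n1) → P ≤ a :=
    ⟨Nat.find ex1, Nat.find_spec ex1, fun a ha => Nat.find_min' ex1 ha⟩
  obtain ⟨P2, hP2, mP2⟩ : ∃ P, D n1 n2 n3 n3 (P * n2) ∧ ∀ a, D n1 n2 n3 n3 (a * n2) → P ≤ a :=
    ⟨Nat.find ex2, Nat.find_spec ex2, fun a ha => Nat.find_min' ex2 ha⟩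
  obtain ⟨C, ⟨r, s, hC⟩, mC⟩ : ∃ C, (∃ r s, (C + 1) * n3 = r * n1 + s * n2) ∧
      ∀ c r s, (c + 1) * n3 = r * n1 + s * n2 → C ≤ c :=
    ⟨Nat.find ex3, Nat.find_spec ex3, fun c r s h => Nat.find_min' ex3 ⟨r, s, h⟩⟩
  have b1 : P1 ≤ N := by
    have := H P1 0 0 ⟨by simpa using hP1, fun a e h => by
      have := mP1 a (by simpa using h); omega, by simp, by simp⟩
    omega
  have b2 : P2 ≤ N := by
    have := H 0 P2 0 ⟨by simpa using hP2, by simp, fun a e h => by
      have := mP2 a (by simpa using h); omega, by simp⟩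
    omega
  have aux : ∀ g R u v w, (C + 1) * n3 = R + g → R = n3 + u * n1 + v * n2 + w * n3 → 0 < g →
      ∀ r' s', g + u * n1 + v * n2 = r' * n1 + s' * n2 → False := by
    intro g R u v w e1 e2 hg r' s' e3
    have : w < C := by
      by_contra hc
      have := Nat.mul_le_mul_right n3 (not_lt.mp hc)
      nlinarith
    obtain ⟨c, rfl⟩ := Nat.exists_eq_add_of_lt this
    have := mC c r' s' (by linarith)
    omega
  have b3 : C + 1 < N := by
    have h1 := H r s 0 ⟨⟨0, 0, C, by linarith⟩, ?_, ?_, by simp⟩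
    · by_contra hc
      have : r + s ≤ C + 1 := by omega
      have := Nat.mul_le_mul_right n3 this
      have h2 : 0 < r + s := by
        by_contra h3
        have : r = 0 := by omega
        have : s = 0 := by omega
        subst r s
        nlinarith
      nlinarith
    · rintro a rfl ⟨u, v, w, e⟩
      exact aux n1 _ u v w (by linarith) e h0 (u + 1) v (by ring)
    · rintro a rfl ⟨u, v, w, e⟩
      exact aux n2 _ u v w (by linarith) e (by omega) u (v + 1) (by ring)
  by_cases hD : D n1 n2 n3 n1 ((C + 1) * n3)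
  · left
    obtain ⟨x1, y1, z1, eD⟩ := hD
    rintro a b c ⟨⟨u, v, w, e⟩, g1, g2, g3⟩
    rcases a with _ | a
    · rcases b with _ | b
      · by_contra hc
        obtain ⟨c', rfl⟩ : ∃ c', c = C + 1 + c' + 1 := ⟨c - C - 2, by omega⟩
        exact g3 _ rfl ⟨x1, y1, z1 + c', by linarith⟩
      rcases c with _ | c
      · by_contra hc
        obtain ⟨b', rfl⟩ : ∃ b', b = P2 + b' := ⟨b - P2, by omega⟩
        obtain ⟨x, y, z, e2⟩ := hP2
        rcases x with _ | x
        · rcases y with _ | y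
          · have := mC z 0 P2 (by linarith)
            obtain ⟨z', rfl⟩ := Nat.exists_eq_add_of_le this
            exact g2 _ rfl ⟨x1, y1 + b', z1 + z', by linarith⟩
          · rcases P2 with _ | P2
            · nlinarith
            · have := mP2 P2 ⟨0, y, z, by linarith⟩
              omega
        · exact g2 _ rfl ⟨x, y + b', z + 1, by linarith⟩
      · rcases v with _ | v
        · rcases w with _ | w
          · have hu := mP1 (u + 1) ⟨0, b + 1, c, by linarith⟩
            obtain ⟨x, y, z, e2⟩ := hP1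
            rcases hu.eq_or_lt with h | h
            · have : b + 1 + (c + 1) ≤ u + 1 := by
                by_contra hc
                have := Nat.mul_le_mul_right n1 (not_le.mp hc).le
                nlinarith
              omega
            · obtain ⟨u', rfl⟩ : ∃ u', u = P1 + u' := ⟨u - P1, by omega⟩
              exact (g3 _ rfl ⟨x + u', y, z, by linarith⟩).elim
          · exact (g3 _ rfl ⟨u, 0, w, by linarith⟩).elim
        · exact (g2 _ rfl ⟨u, v, w, by linarith⟩).elim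
    · rcases a with _ | a
      · rcases b with _ | b
        · rcases c with _ | c
          · omega
          · exact (g3 _ rfl ⟨0, 0, c, by ring⟩).elim
        · exact (g2 _ rfl ⟨0, b, c, by ring⟩).elim
      · exact (g1 _ rfl ⟨a, b, c, by ring⟩).elim
  · right
    obtain rfl : r = 0 := by
      rcases r with _ | r
      · rfl
      · exact (hD ⟨r, s, 0, by linarith⟩).elim
    obtain ⟨s, rfl⟩ : ∃ s', s = s' + 1 := by
      rcases s with _ | s
      · nlinarith
      · exact ⟨s, rfl⟩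
    rintro a b c ⟨⟨u, v, w, e⟩, g1, g2, g3⟩
    rcases b with _ | b
    · rcases a with _ | a
      · by_contra hc
        obtain ⟨c', rfl⟩ : ∃ c', c = C + 1 + c' + 1 := ⟨c - C - 2, by omega⟩
        exact g3 _ rfl ⟨0, s, c', by linarith⟩
      rcases c with _ | c
      · by_contra hc
        obtain ⟨a', rfl⟩ : ∃ a', a = P1 + a' := ⟨a - P1, by omega⟩
        obtain ⟨x, y, z, e2⟩ := hP1
        rcases y with _ | y
        · rcases x with _ | x
          · have := mC z P1 0 (by linarith)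
            obtain ⟨z', rfl⟩ := Nat.exists_eq_add_of_le this
            exact g1 _ rfl ⟨a', s, z', by linarith⟩
          · rcases P1 with _ | P1
            · nlinarith
            · have := mP1 P1 ⟨x, 0, z, by linarith⟩
              omega
        · exact g1 _ rfl ⟨x + a', y, z + 1, by linarith⟩
      · rcases u with _ | u
        · rcases w with _ | w
          · rcases lt_trichotomy v s with h | rfl | h
            · obtain ⟨s', rfl⟩ := Nat.exists_eq_add_of_lt h
              exact (hD ⟨a, s' + 1, c + 1, by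
                exfalso
                exact aux ((s' + 1) * n2 + n1) (n3 + a * n1 + 0 * n2 + c * n3) a 0 c
                  (by linarith) rfl (by positivity) (a + 1) (s' + 1) (by ring)⟩).elim
            · exact (hD ⟨a, 0, c + 1, by linarith⟩).elim
            · obtain ⟨v', rfl⟩ := Nat.exists_eq_add_of_lt h
              exact (g3 _ rfl ⟨0, v', C, by linarith⟩).elim
          · exact (g3 _ rfl ⟨0, v, w, by linarith⟩).elim
        · exact (g1 _ rfl ⟨u, v, w, by linarith⟩).elim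
    · rcases b with _ | b
      · rcases a with _ | a
        · rcases c with _ | c
          · omega
          · exact (g3 _ rfl ⟨0, 0, c, by ring⟩).elim
        · exact (g1 _ rfl ⟨a, 0, c, by ring⟩).elim
      · exact (g2 _ rfl ⟨a, b, c, by ring⟩).elim

/-- For `0 < n₁ < n₂ < n₃` and `Γ = ⟨n₁, n₂, n₃⟩`: if `w₁, w₂, w₃` are the `ω`-values of
`n₁, n₂, n₃`, then `min w₁ w₂ ≤ w₃`; in particular none of the orderings (a), (b), (c) occurs. -/
theorem result (n1 n2 n3 : ℕ) (h0 : 0 < n1) (h12 : n1 < n2) (h23 : n2 < n3) (w1 w2 w3 : ℕ)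
    (H1 : IsLeast {N | 0 < N ∧ OmP (AddSubmonoid.closure {n1, n2, n3}) n1 N} w1)
    (H2 : IsLeast {N | 0 < N ∧ OmP (AddSubmonoid.closure {n1, n2, n3}) n2 N} w2)
    (H3 : IsLeast {N | 0 < N ∧ OmP (AddSubmonoid.closure {n1, n2, n3}) n3 N} w3) :
    min w1 w2 ≤ w3 ∧ ¬ (w1 > w2 ∧ w2 > w3) ∧ ¬ (w1 = w2 ∧ w2 > w3) ∧ ¬ (w3 < w1 ∧ w1 < w2) := by
  have : w1 ≤ w3 ∨ w2 ≤ w3 := by
    rcases main h0 h12 h23 w3 ((om_iff _ _).mp H3.1.2) with h | h
    · exact Or.inl (H1.2 ⟨H3.1.1, (om_iff _ _).mpr h⟩)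
    · exact Or.inr (H2.2 ⟨H3.1.1, (om_iff _ _).mpr h⟩)
  omega

end Pool.Agent.Results.MP_1fb722_al.Order
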